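import Mathlib

/-!
# Cauchy's functional equation on an interval, in the form with three arguments
-/

set_option autoImplicit false

namespace Pool.Agent.U570.RT

/-- a bounded function with `F x + F y + F z = 0` for `x + y + z = 0`, `x² + y² + z² ≤ 3/2` is linear -/
theorem cauchy {F : ℝ → ℝ} {M : ℝ} (hM : ∀ t, |t| ≤ 1 → |F t| ≤ M)
    (h : ∀ x y z : ℝ, x + y + z = 0 → x ^ 2 + y ^ 2 + z ^ 2 ≤ 3 / 2 → F x + F y + F z = 0) :
    ∀ t, |t| ≤ 1 → F t = t * F 1 := by
  -- additivity for arguments of size at most 1/2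
  have add : ∀ x y : ℝ, |x| ≤ 1 / 2 → |y| ≤ 1 / 2 → F x + F y + F (-(x + y)) = 0 := by
    intro x y hx hy
    apply h
    · ring
    · have h1 := abs_le.1 hx
      have h2 := abs_le.1 hy
      nlinarith [mul_nonneg (sub_nonneg.2 h1.2) (sub_nonneg.2 h2.2),
        mul_nonneg (sub_nonneg.2 h1.1) (sub_nonneg.2 h2.1), sq_nonneg (x - y),
        mul_nonneg (sub_nonneg.2 h1.2) (sub_nonneg.2 h1.1),
        mul_nonneg (sub_nonneg.2 h2.2) (sub_nonneg.2 h2.1),
        mul_nonneg (sub_nonneg.2 h1.2) (sub_nonneg.2 h2.1),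
        mul_nonneg (sub_nonneg.2 h1.1) (sub_nonneg.2 h2.2)]
  have F0 : F 0 = 0 := by
    have := add 0 0 (by norm_num) (by norm_num)
    simp only [add_zero, neg_zero] at this
    linarith
  have neg : ∀ x : ℝ, |x| ≤ 1 / 2 → F (-x) = -F x := by
    intro x hx
    have := add x 0 hx (by norm_num)
    rw [add_zero, F0, add_zero] at this
    linarith
  have dbl : ∀ t : ℝ, |t| ≤ 1 → F (-t) = -2 * F (t / 2) := by
    intro t ht
    have h1 : |t / 2| ≤ 1 / 2 := by
      rw [abs_div, abs_of_pos (by norm_num : (0 : ℝ) < 2)]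
      linarith
    have := add (t / 2) (t / 2) h1 h1
    rw [add_halves] at this
    linarith
  set c := F (1 / 2) with hc
  have key : ∀ n : ℕ, ∀ x : ℝ, 0 ≤ x → x ≤ 1 / 2 → |F x - 2 * x * c| ≤ (M + |c|) / 2 ^ n := by
    intro n
    induction n with
    | zero =>
      intro x hx0 hx
      rw [pow_zero, div_one]
      calc |F x - 2 * x * c| ≤ |F x| + |2 * x * c| := abs_sub _ _
        _ ≤ M + |c| := by
          apply add_le_add (hM x (by rw [abs_of_nonneg hx0]; linarith))
          rw [abs_mul, abs_of_nonneg (by linarith)]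
          have := abs_nonneg c
          nlinarith
    | succ n ih =>
      intro x hx0 hx
      by_cases hx4 : x ≤ 1 / 4
      · have h1 := ih (2 * x) (by linarith) (by linarith)
        have h2 := dbl (2 * x) (by rw [abs_of_nonneg (by linarith)]; linarith)
        rw [neg (2 * x) (by rw [abs_of_nonneg (by linarith)]; linarith),
          mul_div_cancel_left₀ x (by norm_num : (2 : ℝ) ≠ 0)] at h2
        have e : F (2 * x) - 2 * (2 * x) * c = 2 * (F x - 2 * x * c) := by linarith
        rw [e, abs_mul, abs_of_pos (by norm_num : (0 : ℝ) < 2)] at h1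
        rw [pow_succ, ← div_div, le_div_iff₀ (by norm_num)]
        linarith
      · push Not at hx4
        have h1 := ih (2 * x - 1 / 2) (by linarith) (by linarith)
        have h2 := dbl (2 * x) (by rw [abs_of_nonneg (by linarith)]; linarith)
        rw [mul_div_cancel_left₀ x (by norm_num : (2 : ℝ) ≠ 0)] at h2
        have h3 := add (2 * x - 1 / 2) (1 / 2) (by rw [abs_of_nonneg (by linarith)]; linarith)
          (by rw [abs_of_nonneg (by norm_num)])
        rw [sub_add_cancel, h2] at h3
        have e : F (2 * x - 1 / 2) - 2 * (2 * x - 1 / 2) * c = 2 * (F x - 2 * x * c) := by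
          rw [← hc] at h3
          linarith
        rw [e, abs_mul, abs_of_pos (by norm_num : (0 : ℝ) < 2)] at h1
        rw [pow_succ, ← div_div, le_div_iff₀ (by norm_num)]
        linarith
  have lin0 : ∀ x : ℝ, 0 ≤ x → x ≤ 1 / 2 → F x = 2 * x * c := by
    intro x hx0 hx
    by_contra hne
    have hpos : 0 < |F x - 2 * x * c| := abs_pos.2 (sub_ne_zero.2 hne)
    obtain ⟨n, hn⟩ := exists_nat_gt ((M + |c|) / |F x - 2 * x * c|)
    have h1 := key n x hx0 hx
    have h2 : (n : ℝ) < 2 ^ n := by exact_mod_cast n.lt_two_pow_self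
    rw [le_div_iff₀ (by positivity)] at h1
    rw [div_lt_iff₀ hpos] at hn
    nlinarith
  have lin1 : ∀ x : ℝ, |x| ≤ 1 / 2 → F x = 2 * x * c := by
    intro x hx
    rcases le_total 0 x with h0 | h0
    · exact lin0 x h0 (by rwa [abs_of_nonneg h0] at hx)
    · have h1 := neg (-x) (by rwa [abs_neg])
      rw [neg_neg] at h1
      rw [h1, lin0 (-x) (by linarith) (by rwa [abs_of_nonpos h0] at hx)]
      ring
  have lin2 : ∀ t : ℝ, |t| ≤ 1 → F t = 2 * t * c := by
    intro t ht
    have h1 := dbl (-t) (by rwa [abs_neg])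
    rw [neg_neg] at h1
    rw [h1, lin1 (-t / 2) (by
      rw [abs_div, abs_neg, abs_of_pos (by norm_num : (0 : ℝ) < 2)]
      linarith)]
    ring
  intro t ht
  rw [lin2 t ht, lin2 1 (by norm_num)]
  ring

end Pool.Agent.U570.RT
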