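import Pool.Agent.U570.RT.Rot
import Pool.Agent.U570.RT.Cau

/-!
# Functions with vanishing sums over the rotated triples: averages about the third axis
-/

set_option autoImplicit false

namespace Pool.Agent.U570.RT

open MeasureTheory Set Real
open scoped RealInnerProductSpace

/-- three unit vectors at angles of 120 degrees in the plane perpendicular to the unit vector `e` -/
structure Trip (n : Fin 3 → E) (e : E) : Prop where
  e1 : ‖e‖ = 1
  perp : ∀ i, ⟪n i, e⟫ = 0
  one : ∀ i, ⟪n i, n i⟫ = 1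
  half : ∀ i j, i ≠ j → ⟪n i, n j⟫ = -1 / 2

/-- the functions: continuous, positively homogeneous, with vanishing sums over the rotated triples -/
structure Fn (n : Fin 3 → E) (G : E → ℝ) : Prop where
  cont : Continuous G
  hom : ∀ (s : ℝ) (x : E), 0 ≤ s → G (s • x) = s * G x
  sum : ∀ ρ : E ≃ₗᵢ[ℝ] E, IsRot ρ → G (ρ (n 0)) + G (ρ (n 1)) + G (ρ (n 2)) = 0

variable {n : Fin 3 → E} {e : E} {G : E → ℝ}

/-- the unit vector on the third axis -/
noncomputable def e3 : E := !₂[0, 0, 1]

theorem e3_norm : ‖e3‖ = 1 := by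
  rw [e3, EuclideanSpace.norm_eq]
  simp [Fin.sum_univ_three]

theorem inner_e3 (x : E) : ⟪e3, x⟫ = x 2 := by
  rw [e3, PiLp.inner_apply]
  simp [Fin.sum_univ_three]

/-- prescribed inner products with the three vectors -/
theorem exists_q (hn : Trip n e) {x y z : ℝ} (h0 : x + y + z = 0) (h1 : x ^ 2 + y ^ 2 + z ^ 2 ≤ 3 / 2) :
    ∃ q : E, ‖q‖ = 1 ∧ ⟪q, n 0⟫ = x ∧ ⟪q, n 1⟫ = y ∧ ⟪q, n 2⟫ = z := by
  set w := √(1 - 2 / 3 * (x ^ 2 + y ^ 2 + z ^ 2)) with hw
  have hw2 : w * w = 1 - 2 / 3 * (x ^ 2 + y ^ 2 + z ^ 2) := Real.mul_self_sqrt (by linarith)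
  have i00 := hn.one 0
  have i11 := hn.one 1
  have i22 := hn.one 2
  have i01 := hn.half 0 1 (by decide)
  have i02 := hn.half 0 2 (by decide)
  have i10 := hn.half 1 0 (by decide)
  have i12 := hn.half 1 2 (by decide)
  have i20 := hn.half 2 0 (by decide)
  have i21 := hn.half 2 1 (by decide)
  have p0 := hn.perp 0
  have p1 := hn.perp 1
  have p2 := hn.perp 2
  have p0' : ⟪e, n 0⟫ = 0 := by rw [real_inner_comm]; exact p0
  have p1' : ⟪e, n 1⟫ = 0 := by rw [real_inner_comm]; exact p1
  have p2' : ⟪e, n 2⟫ = 0 := by rw [real_inner_comm]; exact p2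
  have ee : ⟪e, e⟫ = 1 := by rw [real_inner_self_eq_norm_sq, hn.e1]; norm_num
  refine ⟨(2 / 3 * x) • n 0 + (2 / 3 * y) • n 1 + (2 / 3 * z) • n 2 + w • e, ?_, ?_, ?_, ?_⟩
  · have hsq : ‖(2 / 3 * x) • n 0 + (2 / 3 * y) • n 1 + (2 / 3 * z) • n 2 + w • e‖ ^ 2 = 1 := by
      rw [← real_inner_self_eq_norm_sq]
      simp only [inner_add_left, inner_add_right, real_inner_smul_left, real_inner_smul_right]
      rw [i00, i11, i22, i01, i02, i10, i12, i20, i21, p0, p1, p2, p0', p1', p2', ee]
      have hz : z = -x - y := by linarith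
      subst hz
      ring_nf
      ring_nf at hw2
      linarith
    have h2 := norm_nonneg ((2 / 3 * x) • n 0 + (2 / 3 * y) • n 1 + (2 / 3 * z) • n 2 + w • e)
    nlinarith
  · simp only [inner_add_left, real_inner_smul_left]
    rw [i00, i10, i20, p0']
    linarith
  · simp only [inner_add_left, real_inner_smul_left]
    rw [i01, i11, i21, p1']
    linarith
  · simp only [inner_add_left, real_inner_smul_left]
    rw [i02, i12, i22, p2']
    linarith

/-- the integral over the rotations about the third axis -/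
noncomputable def av (G : E → ℝ) (x : E) : ℝ := ∫ φ in (0 : ℝ)..(2 * π), G (rz φ x)

theorem rz_cont : Continuous (fun p : E × ℝ => rz p.2 p.1) := by
  simp only [rz_apply]
  apply (PiLp.continuous_toLp 2 _).comp
  apply continuous_pi
  intro i
  fin_cases i
  · simp only [Fin.zero_eta, Matrix.cons_val_zero]
    fun_prop
  · simp
    fun_prop
  · simp
    fun_prop

theorem rz_cont1 (x : E) : Continuous (fun φ : ℝ => rz φ x) := by
  simp only [rz_apply]
  apply (PiLp.continuous_toLp 2 _).comp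
  apply continuous_pi
  intro i
  fin_cases i
  · simp only [Fin.zero_eta, Matrix.cons_val_zero]
    fun_prop
  · simp
    fun_prop
  · simp
    fun_prop

theorem rz_add (φ θ : ℝ) (x : E) : rz φ (rz θ x) = rz (φ + θ) x := by
  rw [rz_apply, rz_apply, rz_apply, cos_add, sin_add]
  ext i
  fin_cases i
  · simp; ring
  · simp; ring
  · simp

theorem av_rz (θ : ℝ) (x : E) : av G (rz θ x) = av G x := by
  unfold av
  simp only [rz_add]
  rw [intervalIntegral.integral_comp_add_right (fun t => G (rz t x)) θ, zero_add, add_comm]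
  have hp : Function.Periodic (fun t => G (rz t x)) (2 * π) := by
    intro t
    simp only [rz_apply, cos_add_two_pi, sin_add_two_pi]
  have := hp.intervalIntegral_add_eq θ 0
  rw [zero_add] at this
  exact this

theorem av_eq {x y : E} (h2 : x 2 = y 2) (hn : ‖x‖ = ‖y‖) : av G x = av G y := by
  obtain ⟨θ, rfl⟩ := exists_rz h2 hn
  rw [av_rz]

/-- the meridian -/
noncomputable def mer (t : ℝ) : E := !₂[√(1 - t ^ 2), 0, t]

theorem mer_norm {t : ℝ} (ht : |t| ≤ 1) : ‖mer t‖ = 1 := by
  rw [mer, EuclideanSpace.norm_eq, Real.sqrt_eq_one]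
  simp only [Fin.sum_univ_three, Real.norm_eq_abs, sq_abs]
  simp only [Matrix.cons_val_zero, Matrix.cons_val_one, Matrix.cons_val]
  rw [Real.sq_sqrt]
  · ring
  · have := (sq_le_one_iff_abs_le_one t).2 ht
    linarith

theorem coord_le {x : E} (hx : ‖x‖ = 1) : |x 2| ≤ 1 := by
  rw [← inner_e3]
  calc |⟪e3, x⟫| ≤ ‖e3‖ * ‖x‖ := abs_real_inner_le_norm _ _
    _ = 1 := by rw [e3_norm, hx, one_mul]

theorem av_mer {x : E} (hx : ‖x‖ = 1) : av G x = av G (mer (x 2)) := by
  apply av_eq
  · simp [mer]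
  · rw [hx, mer_norm (coord_le hx)]

/-- the averaged equation -/
theorem av_sum (hG : Fn n G) (ρ : E ≃ₗᵢ[ℝ] E) (hρ : IsRot ρ) :
    av G (ρ (n 0)) + av G (ρ (n 1)) + av G (ρ (n 2)) = 0 := by
  have hc : ∀ x : E, IntervalIntegrable (fun φ => G (rz φ x)) volume 0 (2 * π) := by
    intro x
    apply Continuous.intervalIntegrable
    exact Continuous.comp' hG.cont (rz_cont1 x)
  unfold av
  rw [← intervalIntegral.integral_add (hc _) (hc _),
    ← intervalIntegral.integral_add ((hc _).add (hc _)) (hc _)]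
  have : ∀ φ : ℝ, G (rz φ (ρ (n 0))) + G (rz φ (ρ (n 1))) + G (rz φ (ρ (n 2))) = 0 := by
    intro φ
    exact hG.sum (ρ.trans (rz φ)) (hρ.trans (rz_rot φ))
  simp only [this]
  simp

theorem mer_lin (hn : Trip n e) (hG : Fn n G) : ∀ t, |t| ≤ 1 → av G (mer t) = t * av G (mer 1) := by
  obtain ⟨M, hM⟩ := (isCompact_sphere (0 : E) 1).exists_bound_of_continuousOn hG.cont.continuousOn
  apply cauchy (M := M * (2 * π))
  · intro t ht
    unfold av
    have h1 := intervalIntegral.norm_integral_le_of_norm_le_const (a := (0 : ℝ)) (b := 2 * π)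
      (f := fun φ => G (rz φ (mer t))) (C := M) (by
        intro φ _
        apply hM
        rw [mem_sphere_zero_iff_norm, LinearIsometryEquiv.norm_map, mer_norm ht])
    rw [Real.norm_eq_abs, sub_zero, abs_of_pos (by positivity : (0 : ℝ) < 2 * π)] at h1
    exact h1
  · intro x y z h0 h1
    obtain ⟨q, hq, qx, qy, qz⟩ := exists_q hn h0 h1
    obtain ⟨σ, hσ, hs⟩ := exists_rot hq e3_norm
    have hv : ∀ i, (σ (n i)) 2 = ⟪q, n i⟫ := by
      intro i
      rw [← inner_e3, ← hs, LinearIsometryEquiv.inner_map_map]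
    have hn1 : ∀ i, ‖σ (n i)‖ = 1 := by
      intro i
      rw [LinearIsometryEquiv.norm_map]
      have h2 := hn.one i
      rw [real_inner_self_eq_norm_sq] at h2
      have := norm_nonneg (n i)
      nlinarith
    have h2 := av_sum hG σ hσ
    rw [av_mer (hn1 0), av_mer (hn1 1), av_mer (hn1 2), hv, hv, hv, qx, qy, qz] at h2
    exact h2

theorem av_lin (hn : Trip n e) (hG : Fn n G) (x : E) : av G x = x 2 * (2 * π * G e3) := by
  have h1 : av G (mer 1) = 2 * π * G e3 := by
    unfold av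
    have e1 : ∀ φ : ℝ, rz φ (mer 1) = e3 := by
      intro φ
      rw [rz_apply, mer, e3]
      ext i
      fin_cases i <;> simp
    simp [e1]
  rw [← h1]
  by_cases hx : x = 0
  · subst hx
    have g0 : G 0 = 0 := by
      have := hG.hom 0 0 le_rfl
      rwa [smul_zero, zero_mul] at this
    unfold av
    simp [g0]
  · have hx0 : ‖x‖ ≠ 0 := norm_ne_zero_iff.2 hx
    have h2 : av G x = ‖x‖ * av G (‖x‖⁻¹ • x) := by
      unfold av
      rw [← intervalIntegral.integral_const_mul]
      congr 1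
      funext φ
      rw [← hG.hom _ _ (norm_nonneg x), ← LinearIsometryEquiv.map_smul, smul_smul,
        mul_inv_cancel₀ hx0, one_smul]
    have h3 : ‖‖x‖⁻¹ • x‖ = 1 := by
      rw [norm_smul, norm_inv, norm_norm, inv_mul_cancel₀ hx0]
    rw [h2, av_mer h3, mer_lin hn hG _ (coord_le h3)]
    simp only [PiLp.smul_apply, smul_eq_mul]
    field_simp

end Pool.Agent.U570.RT
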