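import Pool.Agent.U570.RT.Avg

/-!
# Functions with vanishing sums over the rotated triples are linear
-/

set_option autoImplicit false

namespace Pool.Agent.U570.RT

open MeasureTheory Set Real
open scoped RealInnerProductSpace

variable {n : Fin 3 → E} {e : E} {G : E → ℝ}

/-- the unit ball -/
abbrev B1 : Set E := Metric.closedBall (0 : E) 1

theorem int_rot (ρ : E ≃ₗᵢ[ℝ] E) (f : E → ℝ) : ∫ x in B1, f (ρ x) = ∫ x in B1, f x := by
  have h := (LinearIsometryEquiv.measurePreserving ρ).setIntegral_preimage_emb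
    ρ.toHomeomorph.measurableEmbedding f B1
  have h2 : (ρ ⁻¹' B1) = B1 := by
    ext x
    simp [B1]
  rw [← h]
  congr 2
  exact h2.symm

theorem coord_cont : Continuous (fun x : E => x 2) := by fun_prop

theorem swap (hG : Fn n G) : ∫ x in B1, x 2 * av G x = 2 * π * ∫ x in B1, x 2 * G x := by
  have hc : Continuous (fun p : E × ℝ => p.1 2 * G (rz p.2 p.1)) := by
    apply Continuous.mul
    · exact coord_cont.comp' continuous_fst
    · exact Continuous.comp' hG.cont rz_cont
  have hi : Integrable (Function.uncurry fun (x : E) (φ : ℝ) => x 2 * G (rz φ x))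
      ((volume.restrict B1).prod (volume.restrict (Ioc (0 : ℝ) (2 * π)))) := by
    rw [Measure.prod_restrict]
    have h1 : IntegrableOn (fun p : E × ℝ => p.1 2 * G (rz p.2 p.1)) (B1 ×ˢ Icc (0 : ℝ) (2 * π))
        ((volume : Measure E).prod (volume : Measure ℝ)) :=
      hc.continuousOn.integrableOn_compact ((isCompact_closedBall _ _).prod isCompact_Icc)
    exact h1.mono_set (Set.prod_mono subset_rfl Ioc_subset_Icc_self)
  have h1 := integral_integral_swap hi
  have h2 : ∀ x : E, x 2 * av G x = ∫ φ in Ioc (0 : ℝ) (2 * π), x 2 * G (rz φ x) := by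
    intro x
    unfold av
    rw [intervalIntegral.integral_of_le (by positivity), ← integral_const_mul]
  simp only [h2]
  rw [h1]
  have h3 : ∀ φ : ℝ, ∫ x in B1, x 2 * G (rz φ x) = ∫ x in B1, x 2 * G x := by
    intro φ
    rw [← int_rot (rz φ) (fun x => x 2 * G x)]
    congr 1
    funext x
    have : (rz φ x) 2 = x 2 := by
      rw [rz_apply]
      simp
    rw [this]
  simp only [h3]
  rw [setIntegral_const]
  simp [Measure.real, smul_eq_mul, pi_nonneg]

/-- the constant -/
noncomputable def kap : ℝ := ∫ x in B1, (x 2) ^ 2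

theorem kap_pos : 0 < kap := by
  unfold kap
  rw [setIntegral_pos_iff_support_of_nonneg_ae]
  · have ho : IsOpen ({x : E | x 2 ≠ 0} ∩ Metric.ball 0 1) :=
      (isOpen_ne_fun coord_cont continuous_const).inter Metric.isOpen_ball
    have hne : ({x : E | x 2 ≠ 0} ∩ Metric.ball 0 1).Nonempty := by
      refine ⟨(1 / 2 : ℝ) • e3, ?_, ?_⟩
      · simp [e3]
      · rw [mem_ball_zero_iff, norm_smul, e3_norm]
        norm_num
    apply lt_of_lt_of_le (ho.measure_pos volume hne)
    apply measure_mono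
    rintro x ⟨h1, h2⟩
    refine ⟨?_, Metric.ball_subset_closedBall h2⟩
    simpa using h1
  · exact Filter.Eventually.of_forall fun x => sq_nonneg _
  · exact (coord_cont.pow 2).continuousOn.integrableOn_compact (isCompact_closedBall _ _)

theorem ball_e3 (hn : Trip n e) (hG : Fn n G) : ∫ x in B1, x 2 * G x = kap * G e3 := by
  have h1 := swap hG
  have h2 : ∫ x in B1, x 2 * av G x = 2 * π * G e3 * kap := by
    unfold kap
    rw [← integral_const_mul]
    congr 1
    funext x
    rw [av_lin hn hG]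
    ring
  rw [h2] at h1
  have hp : (2 * π) ≠ 0 := by positivity
  have h3 : 2 * π * (∫ x in B1, x 2 * G x) = 2 * π * (kap * G e3) := by
    rw [← h1]
    ring
  exact mul_left_cancel₀ hp h3

theorem fn_rot (hG : Fn n G) {ρ : E ≃ₗᵢ[ℝ] E} (hρ : IsRot ρ) : Fn n (fun x => G (ρ x)) where
  cont := Continuous.comp' hG.cont ρ.continuous
  hom := by
    intro s x hs
    rw [LinearIsometryEquiv.map_smul, hG.hom _ _ hs]
  sum := by
    intro σ hσ
    exact hG.sum (σ.trans ρ) (hσ.trans hρ)

theorem ball_p (hn : Trip n e) (hG : Fn n G) {p : E} (hp : ‖p‖ = 1) :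
    ∫ x in B1, ⟪p, x⟫ * G x = kap * G p := by
  obtain ⟨ρ, hρ, h⟩ := exists_rot e3_norm hp
  have h1 := ball_e3 hn (fn_rot hG hρ)
  rw [h] at h1
  rw [← h1, ← int_rot ρ]
  congr 1
  funext x
  rw [← inner_e3, ← h, LinearIsometryEquiv.inner_map_map]

theorem linear (hn : Trip n e) (hG : Fn n G) : ∃ v : E, ∀ x, G x = ⟪v, x⟫ := by
  refine ⟨kap⁻¹ • ∫ x in B1, G x • x, ?_⟩
  have hunit : ∀ p : E, ‖p‖ = 1 → G p = ⟪kap⁻¹ • ∫ x in B1, G x • x, p⟫ := by
    intro p hp
    have h1 := ball_p hn hG hp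
    rw [real_inner_comm, real_inner_smul_right, ← integral_inner]
    · have h2 : ∫ x in B1, ⟪p, G x • x⟫ = ∫ x in B1, ⟪p, x⟫ * G x := by
        congr 1
        funext x
        rw [real_inner_smul_right]
        ring
      rw [h2, h1, ← mul_assoc, inv_mul_cancel₀ kap_pos.ne', one_mul]
    · exact (hG.cont.smul continuous_id).continuousOn.integrableOn_compact (isCompact_closedBall _ _)
  intro x
  by_cases hx : x = 0
  · subst hx
    have := hG.hom 0 0 le_rfl
    rw [smul_zero, zero_mul] at this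
    rw [this, inner_zero_right]
  · have hx0 : ‖x‖ ≠ 0 := norm_ne_zero_iff.2 hx
    have h3 : ‖‖x‖⁻¹ • x‖ = 1 := by
      rw [norm_smul, norm_inv, norm_norm, inv_mul_cancel₀ hx0]
    have h4 : x = ‖x‖ • (‖x‖⁻¹ • x) := by rw [smul_smul, mul_inv_cancel₀ hx0, one_smul]
    have h5 := hunit _ h3
    calc G x = G (‖x‖ • (‖x‖⁻¹ • x)) := by rw [← h4]
      _ = ‖x‖ * G (‖x‖⁻¹ • x) := hG.hom _ _ (norm_nonneg x)
      _ = ‖x‖ * ⟪kap⁻¹ • ∫ x in B1, G x • x, ‖x‖⁻¹ • x⟫ := by rw [h5]
      _ = ⟪kap⁻¹ • ∫ x in B1, G x • x, x⟫ := by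
        rw [real_inner_smul_right (x := kap⁻¹ • ∫ x in B1, G x • x) (y := x), ← mul_assoc,
          mul_inv_cancel₀ hx0, one_mul]

end Pool.Agent.U570.RT
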