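import Mathlib

/-!
# Rotations of the three-dimensional space
-/

set_option autoImplicit false

namespace Pool.Agent.U570.RT

open MeasureTheory Set Real
open scoped RealInnerProductSpace

/-- the space -/
abbrev E : Type := EuclideanSpace ℝ (Fin 3)

/-- `ρ` is a rotation -/
def IsRot (ρ : E ≃ₗᵢ[ℝ] E) : Prop := LinearMap.det (ρ.toLinearEquiv : E →ₗ[ℝ] E) = 1

theorem IsRot.refl : IsRot (LinearIsometryEquiv.refl ℝ E) := by
  unfold IsRot
  exact LinearMap.det_id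

theorem IsRot.trans {ρ σ : E ≃ₗᵢ[ℝ] E} (h : IsRot ρ) (h' : IsRot σ) : IsRot (ρ.trans σ) := by
  unfold IsRot at *
  have e : ((ρ.trans σ).toLinearEquiv : E →ₗ[ℝ] E) =
      (σ.toLinearEquiv : E →ₗ[ℝ] E) ∘ₗ (ρ.toLinearEquiv : E →ₗ[ℝ] E) := by
    ext x
    rfl
  rw [e, LinearMap.det_comp, h, h', one_mul]

theorem IsRot.symm {ρ : E ≃ₗᵢ[ℝ] E} (h : IsRot ρ) : IsRot ρ.symm := by
  unfold IsRot at *
  have e : ((ρ.symm).toLinearEquiv : E →ₗ[ℝ] E) ∘ₗ (ρ.toLinearEquiv : E →ₗ[ℝ] E) = LinearMap.id := by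
    ext x
    simp
  have e2 := congrArg LinearMap.det e
  rw [LinearMap.det_comp, h, mul_one, LinearMap.det_id] at e2
  exact e2

theorem det_refl_hyper {w : E} (hw : w ≠ 0) :
    LinearMap.det ((ℝ ∙ w)ᗮ.reflection.toLinearEquiv : E →ₗ[ℝ] E) = -1 := by
  have h := Submodule.det_reflection (𝕜 := ℝ) ((ℝ ∙ w)ᗮ : Submodule ℝ E)
  rw [Submodule.orthogonal_orthogonal, finrank_span_singleton hw, pow_one] at h
  exact h

/-- a rotation takes any unit vector to any other -/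
theorem exists_rot {p q : E} (hp : ‖p‖ = 1) (hq : ‖q‖ = 1) : ∃ ρ : E ≃ₗᵢ[ℝ] E, IsRot ρ ∧ ρ p = q := by
  by_cases h : p = q
  · exact ⟨LinearIsometryEquiv.refl ℝ E, IsRot.refl, by simpa using h⟩
  · have h1 : p - q ≠ 0 := sub_ne_zero.2 h
    obtain ⟨w, hw, hwq⟩ : ∃ w : E, w ≠ 0 ∧ ⟪q, w⟫ = 0 := by
      have hf : Module.finrank ℝ (ℝ ∙ q)ᗮ = 2 := by
        have h2 := Submodule.finrank_add_finrank_orthogonal (K := (ℝ ∙ q : Submodule ℝ E))
        rw [finrank_span_singleton (by intro h; simp [h] at hq), finrank_euclideanSpace_fin] at h2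
        omega
      have : Nontrivial (ℝ ∙ q)ᗮ := by
        apply Module.nontrivial_of_finrank_pos (R := ℝ)
        rw [hf]; norm_num
      obtain ⟨⟨w, hw⟩, hw0⟩ := exists_ne (0 : (ℝ ∙ q)ᗮ)
      refine ⟨w, fun h => hw0 (by ext1; exact h), ?_⟩
      exact (Submodule.mem_orthogonal_singleton_iff_inner_right).1 hw
    refine ⟨(ℝ ∙ (p - q))ᗮ.reflection.trans (ℝ ∙ w)ᗮ.reflection, ?_, ?_⟩
    · unfold IsRot
      have e : (((ℝ ∙ (p - q))ᗮ.reflection.trans (ℝ ∙ w)ᗮ.reflection).toLinearEquiv : E →ₗ[ℝ] E) =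
          ((ℝ ∙ w)ᗮ.reflection.toLinearEquiv : E →ₗ[ℝ] E) ∘ₗ
          ((ℝ ∙ (p - q))ᗮ.reflection.toLinearEquiv : E →ₗ[ℝ] E) := by
        ext x
        rfl
      rw [e, LinearMap.det_comp, det_refl_hyper h1, det_refl_hyper hw]
      norm_num
    · rw [LinearIsometryEquiv.trans_apply, Submodule.reflection_sub (by rw [hp, hq])]
      apply Submodule.reflection_mem_subspace_eq_self
      rw [Submodule.mem_orthogonal_singleton_iff_inner_right, real_inner_comm]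
      exact hwq

/-- the matrix of the rotation about the third axis -/
noncomputable def zM (θ : ℝ) : Matrix (Fin 3) (Fin 3) ℝ := !![cos θ, -sin θ, 0; sin θ, cos θ, 0; 0, 0, 1]

theorem zM_apply (θ : ℝ) (x : E) : Matrix.toEuclideanLin (zM θ) x =
    !₂[cos θ * x 0 - sin θ * x 1, sin θ * x 0 + cos θ * x 1, x 2] := by
  ext i
  rw [Matrix.ofLp_toEuclideanLin_apply]
  fin_cases i <;> simp [zM, Matrix.mulVec, dotProduct, Fin.sum_univ_three] <;> ring

theorem zM_norm (θ : ℝ) (x : E) : ‖Matrix.toEuclideanLin (zM θ) x‖ = ‖x‖ := by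
  rw [zM_apply, EuclideanSpace.norm_eq, EuclideanSpace.norm_eq]
  congr 1
  simp only [Fin.sum_univ_three, Real.norm_eq_abs, sq_abs]
  simp only [PiLp.toLp_apply, Matrix.cons_val_zero, Matrix.cons_val_one, Matrix.cons_val]
  have := sin_sq_add_cos_sq θ
  linear_combination (x 0 ^ 2 + x 1 ^ 2) * this

/-- the rotation about the third axis -/
noncomputable def rz (θ : ℝ) : E ≃ₗᵢ[ℝ] E :=
  LinearIsometry.toLinearIsometryEquiv ⟨Matrix.toEuclideanLin (zM θ), zM_norm θ⟩ rfl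

theorem rz_apply (θ : ℝ) (x : E) : rz θ x =
    !₂[cos θ * x 0 - sin θ * x 1, sin θ * x 0 + cos θ * x 1, x 2] := zM_apply θ x

theorem rz_rot (θ : ℝ) : IsRot (rz θ) := by
  unfold IsRot
  have e : ((rz θ).toLinearEquiv : E →ₗ[ℝ] E) = Matrix.toEuclideanLin (zM θ) := by
    ext1 x
    rfl
  rw [e, Matrix.toEuclideanLin_eq_toLin, LinearMap.det_toLin, zM, Matrix.det_fin_three]
  simp
  have := sin_sq_add_cos_sq θ
  linear_combination this

theorem exists_angle {a b : ℝ} (h : a ^ 2 + b ^ 2 = 1) : ∃ θ : ℝ, cos θ = a ∧ sin θ = b := by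
  have hn : ‖(⟨a, b⟩ : ℂ)‖ = 1 := by
    rw [Complex.norm_def, Complex.normSq_mk, Real.sqrt_eq_one]
    linarith [h, sq a, sq b]
  have h0 : (⟨a, b⟩ : ℂ) ≠ 0 := by
    intro h
    rw [h, norm_zero] at hn
    norm_num at hn
  refine ⟨Complex.arg ⟨a, b⟩, ?_, ?_⟩
  · rw [Complex.cos_arg h0, hn, div_one]
  · rw [Complex.sin_arg, hn, div_one]

/-- vectors with the same norm and the same third coordinate -/
theorem exists_rz {x y : E} (h2 : x 2 = y 2) (hn : ‖x‖ = ‖y‖) : ∃ θ : ℝ, y = rz θ x := by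
  have hq : x 0 ^ 2 + x 1 ^ 2 = y 0 ^ 2 + y 1 ^ 2 := by
    have h3 : ‖x‖ ^ 2 = ‖y‖ ^ 2 := by rw [hn]
    rw [EuclideanSpace.norm_sq_eq, EuclideanSpace.norm_sq_eq] at h3
    simp only [Fin.sum_univ_three, Real.norm_eq_abs, sq_abs] at h3
    rw [h2] at h3
    linarith
  by_cases h0 : x 0 ^ 2 + x 1 ^ 2 = 0
  · have hx0 : x 0 = 0 := by nlinarith [sq_nonneg (x 0), sq_nonneg (x 1)]
    have hx1 : x 1 = 0 := by nlinarith [sq_nonneg (x 0), sq_nonneg (x 1)]
    have hy0 : y 0 = 0 := by nlinarith [sq_nonneg (y 0), sq_nonneg (y 1)]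
    have hy1 : y 1 = 0 := by nlinarith [sq_nonneg (y 0), sq_nonneg (y 1)]
    refine ⟨0, ?_⟩
    rw [rz_apply]
    ext i
    fin_cases i <;> simp [hx0, hx1, hy0, hy1, h2]
  · obtain ⟨θ, hc, hs⟩ := exists_angle (a := (x 0 * y 0 + x 1 * y 1) / (x 0 ^ 2 + x 1 ^ 2))
      (b := (x 0 * y 1 - x 1 * y 0) / (x 0 ^ 2 + x 1 ^ 2)) (by
        rw [div_pow, div_pow, ← add_div, div_eq_one_iff_eq (pow_ne_zero 2 h0)]
        have e : (x 0 * y 0 + x 1 * y 1) ^ 2 + (x 0 * y 1 - x 1 * y 0) ^ 2 =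
          (x 0 ^ 2 + x 1 ^ 2) * (y 0 ^ 2 + y 1 ^ 2) := by ring
        rw [e, ← hq]
        ring)
    refine ⟨θ, ?_⟩
    rw [rz_apply, hc, hs]
    ext i
    fin_cases i
    · simp
      field_simp
      ring
    · simp
      field_simp
      ring
    · simp [h2]

end Pool.Agent.U570.RT
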