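import Pool.Agent.U570.RT.Lin

/-!
# Equilateral triangles, prisms and rotors
-/

set_option autoImplicit false

namespace Pool.Agent.U570.RT

open MeasureTheory Set Real
open scoped RealInnerProductSpace

/-- the plane -/
abbrev P : Type := EuclideanSpace ℝ (Fin 2)

/-- the projection -/
noncomputable def pr (x : E) : P := !₂[x 0, x 1]

/-- the inclusion of the plane -/
noncomputable def lf (a : P) : E := !₂[a 0, a 1, 0]

theorem inner_lf (x : E) (a : P) : ⟪x, lf a⟫ = ⟪pr x, a⟫ := by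
  rw [PiLp.inner_apply, PiLp.inner_apply]
  simp [Fin.sum_univ_three, Fin.sum_univ_two, lf, pr]

theorem pr_lf (a : P) : pr (lf a) = a := by
  ext i
  fin_cases i <;> simp [pr, lf]

theorem pr_add (x y : E) : pr (x + y) = pr x + pr y := by
  ext i
  fin_cases i <;> simp [pr]

theorem pr_smul (s : ℝ) (x : E) : pr (s • x) = s • pr x := by
  ext i
  fin_cases i <;> simp [pr]

theorem pr_norm (x : E) : ‖pr x‖ ≤ ‖x‖ := by
  rw [EuclideanSpace.norm_eq, EuclideanSpace.norm_eq]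
  apply Real.sqrt_le_sqrt
  simp [Fin.sum_univ_three, Fin.sum_univ_two, pr]
  positivity

theorem lf_inner_e3 (a : P) : ⟪lf a, e3⟫ = 0 := by
  rw [real_inner_comm, inner_e3]
  simp [lf]

theorem lf_add (a b : P) : lf (a + b) = lf a + lf b := by
  ext i
  fin_cases i <;> simp [lf]

theorem lf_zero : lf (0 : P) = 0 := by
  ext i
  fin_cases i <;> simp [lf]

theorem lf_smul (s : ℝ) (a : P) : lf (s • a) = s • lf a := by
  ext i
  fin_cases i <;> simp [lf]

theorem lf_norm (a : P) : ‖lf a‖ = ‖a‖ := by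
  rw [EuclideanSpace.norm_eq, EuclideanSpace.norm_eq]
  simp [Fin.sum_univ_three, Fin.sum_univ_two, lf]

/-- three vectors of the plane with sum zero, the same norm, at angles of 120 degrees -/
structure Fr (v : Fin 3 → P) (q : ℝ) : Prop where
  pos : 0 < q
  sum : v 0 + v 1 + v 2 = 0
  one : ∀ i, ⟪v i, v i⟫ = q
  half : ∀ i j, i ≠ j → ⟪v i, v j⟫ = -q / 2

/-- the tight frame identity -/
theorem Fr.tight {v : Fin 3 → P} {q : ℝ} (h : Fr v q) (y : P) :
    ⟪y, v 0⟫ • v 0 + ⟪y, v 1⟫ • v 1 + ⟪y, v 2⟫ • v 2 = (3 / 2 * q) • y := by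
  have hq := h.pos
  have s0 : v 0 0 + v 1 0 + v 2 0 = 0 := by
    have := congrFun (congrArg (fun x : P => x.ofLp) h.sum) 0
    simpa using this
  have s1 : v 0 1 + v 1 1 + v 2 1 = 0 := by
    have := congrFun (congrArg (fun x : P => x.ofLp) h.sum) 1
    simpa using this
  have i00 := h.one 0
  have i11 := h.one 1
  have i01 := h.half 0 1 (by decide)
  rw [PiLp.inner_apply] at i00 i11 i01
  simp only [Fin.sum_univ_two, RCLike.inner_apply, conj_trivial] at i00 i11 i01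
  set a0 := v 0 0
  set a1 := v 0 1
  set b0 := v 1 0
  set b1 := v 1 1
  have hc0 : v 2 0 = -a0 - b0 := by linarith
  have hc1 : v 2 1 = -a1 - b1 := by linarith
  set d := a0 * b1 - a1 * b0 with hd
  have hd2 : d ^ 2 = 3 / 4 * q ^ 2 := by
    have e : (a0 * a0 + a1 * a1) * (b0 * b0 + b1 * b1) = (b0 * a0 + b1 * a1) ^ 2 + d ^ 2 := by
      rw [hd]; ring
    rw [i00, i11, i01] at e
    linarith [e]
  have e0 : q * b0 = -(q / 2) * a0 - d * a1 := by
    have : (a0 * a0 + a1 * a1) * b0 = a0 * (b0 * a0 + b1 * a1) - a1 * d := by rw [hd]; ring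
    rw [i00, i01] at this
    linarith
  have e1 : q * b1 = -(q / 2) * a1 + d * a0 := by
    have : (a0 * a0 + a1 * a1) * b1 = a1 * (b0 * a0 + b1 * a1) + a0 * d := by rw [hd]; ring
    rw [i00, i01] at this
    linarith
  have hq2 : q ^ 2 ≠ 0 := by positivity
  have f0 : a0 ^ 2 + b0 ^ 2 + a0 * b0 = 3 / 4 * q := by
    apply mul_left_cancel₀ hq2
    have e : q ^ 2 * (a0 ^ 2 + b0 ^ 2 + a0 * b0) = (q * a0) ^ 2 + (q * b0) ^ 2 + (q * a0) * (q * b0) := by
      ring
    rw [e, e0]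
    have e2 : (q * a0) ^ 2 + (-(q / 2) * a0 - d * a1) ^ 2 + q * a0 * (-(q / 2) * a0 - d * a1) =
        3 / 4 * q ^ 2 * (a0 * a0) + d ^ 2 * (a1 * a1) := by ring
    rw [e2, hd2, ← mul_add, i00]
    ring
  have f1 : a1 ^ 2 + b1 ^ 2 + a1 * b1 = 3 / 4 * q := by
    apply mul_left_cancel₀ hq2
    have e : q ^ 2 * (a1 ^ 2 + b1 ^ 2 + a1 * b1) = (q * a1) ^ 2 + (q * b1) ^ 2 + (q * a1) * (q * b1) := by
      ring
    rw [e, e1]
    have e2 : (q * a1) ^ 2 + (-(q / 2) * a1 + d * a0) ^ 2 + q * a1 * (-(q / 2) * a1 + d * a0) =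
        3 / 4 * q ^ 2 * (a1 * a1) + d ^ 2 * (a0 * a0) := by ring
    rw [e2, hd2, ← mul_add, add_comm (a1 * a1), i00]
    ring
  have f2 : 2 * (a0 * a1) + 2 * (b0 * b1) + a0 * b1 + a1 * b0 = 0 := by
    apply mul_left_cancel₀ hq2
    have e : q ^ 2 * (2 * (a0 * a1) + 2 * (b0 * b1) + a0 * b1 + a1 * b0) =
        2 * ((q * a0) * (q * a1)) + 2 * ((q * b0) * (q * b1)) + (q * a0) * (q * b1) + (q * a1) * (q * b0) := by
      ring
    rw [e, e0, e1]
    have e2 : 2 * (q * a0 * (q * a1)) + 2 * ((-(q / 2) * a0 - d * a1) * (-(q / 2) * a1 + d * a0)) +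
        q * a0 * (-(q / 2) * a1 + d * a0) + q * a1 * (-(q / 2) * a0 - d * a1) =
        2 * (a0 * a1) * (3 / 4 * q ^ 2 - d ^ 2) := by ring
    rw [e2, hd2]
    ring
  have key : ∀ y0 y1 : ℝ,
      (a0 * y0 + a1 * y1) * a0 + (b0 * y0 + b1 * y1) * b0 + ((-a0 - b0) * y0 + (-a1 - b1) * y1) * (-a0 - b0) =
        3 / 2 * q * y0 ∧
      (a0 * y0 + a1 * y1) * a1 + (b0 * y0 + b1 * y1) * b1 + ((-a0 - b0) * y0 + (-a1 - b1) * y1) * (-a1 - b1) =
        3 / 2 * q * y1 := by
    intro y0 y1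
    constructor
    · linear_combination 2 * y0 * f0 + y1 * f2
    · linear_combination 2 * y1 * f1 + y0 * f2
  ext i
  fin_cases i
  · have := (key (y 0) (y 1)).1
    simp only [PiLp.inner_apply, Fin.sum_univ_two, RCLike.inner_apply, conj_trivial, hc0, hc1,
      Fin.zero_eta, PiLp.add_apply, PiLp.smul_apply, smul_eq_mul]
    exact this
  · have := (key (y 0) (y 1)).2
    simp only [PiLp.inner_apply, Fin.sum_univ_two, RCLike.inner_apply, conj_trivial, hc0, hc1,
      Fin.mk_one, PiLp.add_apply, PiLp.smul_apply, smul_eq_mul]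
    exact this

end Pool.Agent.U570.RT
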